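import Pool.Agent.Y596.TS.Stm

/-!
# Project TS: few questions do not find the end of a random line
-/

set_option autoImplicit false

namespace Pool.Agent.Y907.TS.Sb

open Finset
open Pool.Agent.Y596.TS

variable {V : Type} {T : ℕ}

theorem pt_lt (s : V) (γ : Fin T → V) {i : ℕ} (h : i < T) : pt s γ (i + 1) = γ ⟨i, h⟩ := dif_pos h

theorem pt_ge (s : V) (γ : Fin T → V) {i : ℕ} (h : ¬ i < T) : pt s γ (i + 1) = s := dif_neg h

open Classical in
/-- the least number with the property `p` -/
noncomputable def fi (p : ℕ → Prop) : Option ℕ := if h : ∃ i, p i then some (Nat.find h) else none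

theorem fi_spec {p : ℕ → Prop} {i : ℕ} (h : fi p = some i) : p i := by
  classical
  unfold fi at h
  split_ifs at h with h1
  rw [Option.some.injEq] at h
  rw [← h]
  exact Nat.find_spec h1

/-- the record of the vertex number `i` -/
def R (s : V) (γ : Fin T → V) (i : ℕ) : ℕ × V × V := (i, pt s γ (min (i + 1) T), pt s γ (i - 1))

theorem rc_eq (s : V) (γ : Fin T → V) (v : V) :
    rc s γ v = (fi (fun i => i ≤ T ∧ pt s γ i = v)).map (R s γ) := by
  classical
  unfold rc fi
  by_cases h : ∃ i, i ≤ T ∧ pt s γ i = v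
  · rw [dif_pos h, dif_pos h, Option.map_some]
    unfold R
    congr!
  · rw [dif_neg h, dif_neg h, Option.map_none]

/-- the number found in the state `st` -/
noncomputable def ob (s : V) (γ : Fin T → V) (w : List Bool → V) (st : List Bool × ℕ) : Option ℕ :=
  fi (fun i => i ≤ min (st.2 + 1) T ∧ pt s γ i = w st.1)

/-- one step of the ideal process -/
noncomputable def stp (s : V) (γ : Fin T → V) (w : List Bool → V)
    (φ : List Bool → Option (ℕ × V × V) → Bool) (st : List Bool × ℕ) : List Bool × ℕ :=
  (st.1 ++ [φ st.1 ((ob s γ w st).map (R s γ))], max st.2 ((ob s γ w st).getD 0))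

/-- the ideal process -/
noncomputable def ist (s : V) (γ : Fin T → V) (w : List Bool → V)
    (φ : List Bool → Option (ℕ × V × V) → Bool) : ℕ → List Bool × ℕ
  | 0 => ([], 0)
  | k + 1 => stp s γ w φ (ist s γ w φ k)

theorem ob_le (s : V) (γ : Fin T → V) (w : List Bool → V) (st : List Bool × ℕ) :
    (ob s γ w st).getD 0 ≤ st.2 + 1 := by
  cases h : ob s γ w st with
  | none => simp
  | some i =>
    have := (fi_spec h).1
    simp only [Option.getD_some]
    exact this.trans (min_le_left _ _)

theorem m_le (s : V) (γ : Fin T → V) (w : List Bool → V)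
    (φ : List Bool → Option (ℕ × V × V) → Bool) (k : ℕ) : (ist s γ w φ k).2 ≤ k := by
  induction k with
  | zero => exact le_rfl
  | succ k ih =>
    show max _ _ ≤ k + 1
    have := ob_le s γ w (ist s γ w φ k)
    omega

theorem loc (s : V) (γ γ' : Fin T → V) (w : List Bool → V)
    (φ : List Bool → Option (ℕ × V × V) → Bool) (k : ℕ) :
    (∀ i ≤ (ist s γ w φ k).2 + 1, pt s γ' i = pt s γ i) → ist s γ' w φ k = ist s γ w φ k := by
  induction k with
  | zero => intro _; rfl
  | succ k ih =>
    intro h
    have hm : (ist s γ w φ k).2 ≤ (ist s γ w φ (k + 1)).2 := le_max_left _ _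
    have h1 := ih (fun i hi => h i (by omega))
    show stp s γ' w φ (ist s γ' w φ k) = stp s γ w φ (ist s γ w φ k)
    rw [h1]
    have h2 : ob s γ' w (ist s γ w φ k) = ob s γ w (ist s γ w φ k) := by
      unfold ob
      congr 1
      funext i
      apply propext
      constructor
      · rintro ⟨h3, h4⟩
        refine ⟨h3, ?_⟩
        rw [← h4, h i]
        have := h3.trans (min_le_left _ _)
        omega
      · rintro ⟨h3, h4⟩
        refine ⟨h3, ?_⟩
        rw [← h4, h i]
        have := h3.trans (min_le_left _ _)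
        omega
    unfold stp
    rw [h2]
    have h3 : (ob s γ w (ist s γ w φ k)).map (R s γ') = (ob s γ w (ist s γ w φ k)).map (R s γ) := by
      cases ho : ob s γ w (ist s γ w φ k) with
      | none => rfl
      | some i =>
        have h5 : i ≤ (ist s γ w φ (k + 1)).2 := by
          show i ≤ max _ _
          rw [ho]
          exact le_max_right _ _
        simp only [Option.map_some, R]
        rw [h (min (i + 1) T) ((min_le_left _ _).trans (by omega)), h (i - 1) (by omega)]
    rw [h3]

theorem rans_eq (s : V) (γ : Fin T → V) (w : List Bool → V)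
    (φ : List Bool → Option (ℕ × V × V) → Bool) (k : ℕ) :
    (∀ k' < k, ∀ j, (ist s γ w φ k').2 + 1 < j → j ≤ T → w (ist s γ w φ k').1 ≠ pt s γ j) →
    rans w φ (rc s γ) k = (ist s γ w φ k).1 := by
  induction k with
  | zero => intro _; rfl
  | succ k ih =>
    intro h
    have h1 := ih (fun k' hk' => h k' (by omega))
    show rans w φ (rc s γ) k ++ [φ (rans w φ (rc s γ) k) (rc s γ (w (rans w φ (rc s γ) k)))] = _
    rw [h1, rc_eq]
    have h2 : (fun i => i ≤ T ∧ pt s γ i = w (ist s γ w φ k).1) =
        (fun i => i ≤ min ((ist s γ w φ k).2 + 1) T ∧ pt s γ i = w (ist s γ w φ k).1) := by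
      funext i
      apply propext
      constructor
      · rintro ⟨h3, h4⟩
        refine ⟨le_min ?_ h3, h4⟩
        by_contra h5
        exact h k (by omega) i (by omega) h3 h4.symm
      · rintro ⟨h3, h4⟩
        exact ⟨h3.trans (min_le_right _ _), h4⟩
    rw [h2]
    rfl

theorem found (s : V) (γ : Fin T → V) (w : List Bool → V)
    (φ : List Bool → Option (ℕ × V × V) → Bool) (q : ℕ) (hq : q + 2 < T)
    (h : w (rans w φ (rc s γ) q) = pt s γ T) :
    ∃ k ∈ range (q + 1), ∃ j ∈ range (T + 1),
      (ist s γ w φ k).2 + 1 < j ∧ w (ist s γ w φ k).1 = pt s γ j := by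
  by_contra hcon
  push Not at hcon
  have h1 := rans_eq s γ w φ q (fun k hk j hj hjT =>
    hcon k (Finset.mem_range.2 (by omega)) j (Finset.mem_range.2 (by omega)) hj)
  rw [h1] at h
  have h2 := m_le s γ w φ q
  exact hcon q (Finset.mem_range.2 (by omega)) T (Finset.mem_range.2 (by omega)) (by omega) h

theorem cnt [Fintype V] (s : V) (w : List Bool → V)
    (φ : List Bool → Option (ℕ × V × V) → Bool) (k j : ℕ) (hj : j ≤ T)
    [DecidablePred (fun γ : Fin T → V => (ist s γ w φ k).2 + 1 < j ∧
      w (ist s γ w φ k).1 = pt s γ j)] :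
    Fintype.card V * (univ.filter (fun γ : Fin T → V => (ist s γ w φ k).2 + 1 < j ∧
      w (ist s γ w φ k).1 = pt s γ j)).card ≤ Fintype.card V ^ T := by
  classical
  rcases j with _ | j
  · rw [Finset.filter_false_of_mem]
    · simp
    · rintro γ _ ⟨h, _⟩
      omega
  have hj' : j < T := hj
  set S := univ.filter (fun γ : Fin T → V => (ist s γ w φ k).2 + 1 < j + 1 ∧
      w (ist s γ w φ k).1 = pt s γ (j + 1)) with hS
  have h1 : (S ×ˢ (univ : Finset V)).card ≤ (univ : Finset (Fin T → V)).card := by
    apply Finset.card_le_card_of_injOn (fun p => Function.update p.1 ⟨j, hj'⟩ p.2)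
      (fun _ _ => by simp)
    rintro ⟨γ, c⟩ h1 ⟨γ', c'⟩ h2 he
    simp only [Finset.coe_product, Finset.coe_univ, Set.mem_prod, Finset.mem_coe, Set.mem_univ,
      and_true] at h1 h2
    simp only at he
    have hc : c = c' := by
      have := congrFun he ⟨j, hj'⟩
      simpa using this
    have hne : ∀ i : Fin T, i ≠ ⟨j, hj'⟩ → γ i = γ' i := by
      intro i hi
      have := congrFun he i
      rwa [Function.update_of_ne hi, Function.update_of_ne hi] at this
    obtain ⟨h3, h4⟩ := (Finset.mem_filter.1 h1).2
    obtain ⟨h5, h6⟩ := (Finset.mem_filter.1 h2).2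
    have hpt : ∀ i, i ≠ j + 1 → pt s γ' i = pt s γ i := by
      intro i hi
      rcases i with _ | i
      · rfl
      · by_cases hiT : i < T
        · rw [pt_lt s _ hiT, pt_lt s _ hiT]
          refine (hne ⟨i, hiT⟩ ?_).symm
          intro h
          apply hi
          rw [Fin.mk.injEq] at h
          omega
        · rw [pt_ge s _ hiT, pt_ge s _ hiT]
    have hst := loc s γ γ' w φ k (fun i hi => hpt i (by omega))
    have hj2 : pt s γ (j + 1) = pt s γ' (j + 1) := by
      rw [← h4, ← h6, hst]
    have hγ : γ = γ' := by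
      funext i
      by_cases hi : i = ⟨j, hj'⟩
      · rw [hi]
        rw [pt_lt s _ hj', pt_lt s _ hj'] at hj2
        exact hj2
      · exact hne i hi
    rw [hγ, hc]
  rw [Finset.card_product, Finset.card_univ, Finset.card_univ, Fintype.card_fun,
    Fintype.card_fin] at h1
  rw [mul_comm]
  exact h1

theorem t : S_sb := by
  classical
  intro V _ s T q w φ hq
  have h1 : (univ.filter (fun γ : Fin T → V => Inj s γ ∧
      w (rans w φ (rc s γ) q) = pt s γ T)).card ≤
      ∑ k ∈ range (q + 1), ∑ j ∈ range (T + 1), (univ.filter (fun γ : Fin T → V =>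
        (ist s γ w φ k).2 + 1 < j ∧ w (ist s γ w φ k).1 = pt s γ j)).card := by
    have h2 : (univ.filter (fun γ : Fin T → V => Inj s γ ∧
      w (rans w φ (rc s γ) q) = pt s γ T)) ⊆ (range (q + 1)).biUnion (fun k =>
        (range (T + 1)).biUnion (fun j => univ.filter (fun γ : Fin T → V =>
        (ist s γ w φ k).2 + 1 < j ∧ w (ist s γ w φ k).1 = pt s γ j))) := by
      intro γ hγ
      obtain ⟨k, hk, j, hj, h3⟩ := found s γ w φ q hq (Finset.mem_filter.1 hγ).2.2
      rw [Finset.mem_biUnion]
      refine ⟨k, hk, ?_⟩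
      rw [Finset.mem_biUnion]
      exact ⟨j, hj, Finset.mem_filter.2 ⟨Finset.mem_univ _, h3⟩⟩
    refine (Finset.card_le_card h2).trans (Finset.card_biUnion_le.trans ?_)
    exact Finset.sum_le_sum fun k _ => Finset.card_biUnion_le
  calc _ ≤ Fintype.card V * ∑ k ∈ range (q + 1), ∑ j ∈ range (T + 1),
        (univ.filter (fun γ : Fin T → V =>
        (ist s γ w φ k).2 + 1 < j ∧ w (ist s γ w φ k).1 = pt s γ j)).card := by
        refine Nat.mul_le_mul_left _ ?_
        convert h1
    _ = ∑ k ∈ range (q + 1), ∑ j ∈ range (T + 1), Fintype.card V *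
        (univ.filter (fun γ : Fin T → V =>
        (ist s γ w φ k).2 + 1 < j ∧ w (ist s γ w φ k).1 = pt s γ j)).card := by
        rw [Finset.mul_sum]
        exact Finset.sum_congr rfl fun k _ => Finset.mul_sum _ _ _
    _ ≤ ∑ k ∈ range (q + 1), ∑ j ∈ range (T + 1), Fintype.card V ^ T :=
        Finset.sum_le_sum fun k _ => Finset.sum_le_sum fun j hj =>
          cnt s w φ k j (by have := Finset.mem_range.1 hj; omega)
    _ = (q + 1) * (T + 1) * Fintype.card V ^ T := by
        rw [Finset.sum_const, Finset.sum_const, Finset.card_range, Finset.card_range,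
          smul_eq_mul, smul_eq_mul]
        ring

end Pool.Agent.Y907.TS.Sb
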